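import Mathlib
import Pool.Agent.Helper168.MM.Val

/-!
# MP_5d730e_nt: the case `k = 2`

There is a polynomial `F` with integer coefficients in two variables and of dimension 2 such that
the Mahler measures `m(F_H)`, `H` in the set of all matrices in saturated Hermite normal form with
two columns, are pairwise distinct: `F = (4 + x + 2 y) (9 y + x y + 3)`.

Proof.  For `H = (n p)` with `p < 0`, `s = - p`, one has `m(F_H) = log 9 + m(z ^ (n + s) + 4 z ^ s + 2)`,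
since `9` dominates `z ^ n + 3 z ^ s` on the unit circle; for `p > 0`, `s = p`, one has
`m(F_H) = log 4 + m(z ^ (n + s) + 9 z ^ s + 3)`; in the other cases `m(F_H)` is the logarithm of one of
the integers `91, 50, 72, 36`.  The trinomial `z ^ (n + s) + 4 z ^ s + 2` has exactly `n` zeros outside
the unit circle, and all its zeros have the same 2-adic valuation `1 / (n + s)`.  So the algebraic
number `M(z ^ (n + s) + 4 z ^ s + 2)`, which is up to the sign the product of these `n` zeros, has the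
2-adic valuation `n / (n + s)` for each extension of the 2-adic valuation of `ℚ`, and this determines
`n` and `s`.  Similarly for the other family, with the prime `3`.
-/

set_option autoImplicit false

namespace Pool.Agent.Results.MP_5d730e_nt.TwoVariables

open Polynomial Pool.Agent.Helper168.MM

/-- The matrices with two columns in saturated Hermite normal form: the empty matrix, the matrix
`(0 1)`, the matrices `(n p)` with `n ≥ 1` and `gcd(n, p) = 1`, and the unit matrix `I_2`. -/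
inductive SHNF : Type
  | empty : SHNF
  | zeroOne : SHNF
  | row (n : ℕ) (p : ℤ) (hn : 1 ≤ n) (h : Int.gcd (n : ℤ) p = 1) : SHNF
  | unit : SHNF

/-- The value `F(x, y)`. -/
noncomputable def ev (F : MvPolynomial (Fin 2) ℤ) (x y : ℂ) : ℂ := MvPolynomial.aeval ![x, y] F

/-- The logarithmic Mahler measure `m(F_H)`: it is `log |F(1, 1)|`, or the mean of `log |F(1, z)|` or
of `log |F(z ^ n, z ^ p)|` over the unit circle, or the mean of `log |F(z, w)|` over the torus. -/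
noncomputable def m (F : MvPolynomial (Fin 2) ℤ) : SHNF → ℝ
  | .empty => Real.log ‖ev F 1 1‖
  | .zeroOne => Real.circleAverage (fun z => Real.log ‖ev F 1 z‖) 0 1
  | .row n p _ _ => Real.circleAverage (fun z => Real.log ‖ev F (z ^ n) (z ^ p)‖) 0 1
  | .unit => Real.circleAverage
      (fun z => Real.circleAverage (fun w => Real.log ‖ev F z w‖) 0 1) 0 1

/-- `F` has dimension 2: there are three exponent vectors of `F` that are not on a line. -/
def HasDimTwo (F : MvPolynomial (Fin 2) ℤ) : Prop :=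
  ∃ a ∈ F.support, ∃ b ∈ F.support, ∃ c ∈ F.support,
    ((b 0 : ℤ) - a 0) * (c 1 - a 1) ≠ ((b 1 : ℤ) - a 1) * (c 0 - a 0)

/-! ### the polynomial -/

/-- exponent vectors -/
noncomputable def e (i j : ℕ) : Fin 2 →₀ ℕ := Finsupp.single 0 i + Finsupp.single 1 j

lemma e_zero (i j : ℕ) : e i j 0 = i := by simp [e]
lemma e_one (i j : ℕ) : e i j 1 = j := by simp [e]

lemma e_inj (i j i' j' : ℕ) : e i j = e i' j' ↔ i = i' ∧ j = j' := by
  constructor
  · intro h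
    exact ⟨by rw [← e_zero i j, h, e_zero], by rw [← e_one i j, h, e_one]⟩
  · rintro ⟨rfl, rfl⟩; rfl

/-- `F = (4 + x + 2 y) (9 y + x y + 3)` -/
noncomputable def F0 : MvPolynomial (Fin 2) ℤ :=
  MvPolynomial.monomial (e 0 0) 12 + MvPolynomial.monomial (e 1 0) 3 +
  MvPolynomial.monomial (e 0 1) 42 + MvPolynomial.monomial (e 1 1) 13 +
  MvPolynomial.monomial (e 2 1) 1 + MvPolynomial.monomial (e 0 2) 18 +
  MvPolynomial.monomial (e 1 2) 2

lemma ev_mono (i j : ℕ) (c : ℤ) (x y : ℂ) :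
    MvPolynomial.aeval ![x, y] (MvPolynomial.monomial (e i j) c) = (c : ℂ) * (x ^ i * y ^ j) := by
  rw [MvPolynomial.aeval_monomial, e, Finsupp.prod_add_index' (by simp)
    (by intro a b₁ b₂; rw [pow_add]), Finsupp.prod_single_index (by simp),
    Finsupp.prod_single_index (by simp)]
  simp

lemma ev_F0 (x y : ℂ) : ev F0 x y = (4 + x + 2 * y) * (9 * y + x * y + 3) := by
  rw [ev, F0]
  simp only [map_add, ev_mono]
  push_cast
  ring

lemma dim_F0 : HasDimTwo F0 := by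
  refine ⟨e 0 0, ?_, e 2 1, ?_, e 0 2, ?_, ?_⟩
  · rw [MvPolynomial.mem_support_iff]
    simp [F0, MvPolynomial.coeff_monomial, e_inj]
  · rw [MvPolynomial.mem_support_iff]
    simp [F0, MvPolynomial.coeff_monomial, e_inj]
  · rw [MvPolynomial.mem_support_iff]
    simp [F0, MvPolynomial.coeff_monomial, e_inj]
  · simp [e_zero, e_one]

lemma ne1 {x y : ℂ} (hx : ‖x‖ ≤ 1) (hy : ‖y‖ ≤ 1) : 4 + x + 2 * y ≠ 0 := by
  intro h
  have h1 : (4 : ℂ) = -(x + 2 * y) := by linear_combination h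
  have h2 := congrArg norm h1
  rw [norm_neg] at h2
  have h3 : ‖x + 2 * y‖ ≤ 3 := by
    refine (norm_add_le _ _).trans ?_
    rw [norm_mul]
    norm_num
    linarith
  have h4 : ‖(4 : ℂ)‖ = 4 := by norm_num
  rw [h4] at h2
  linarith

lemma ne2 {x y : ℂ} (hx : ‖x‖ ≤ 1) (hy : ‖y‖ = 1) : 9 * y + x * y + 3 ≠ 0 := by
  intro h
  have h1 : 9 * y = -(x * y + 3) := by linear_combination h
  have h2 := congrArg norm h1
  rw [norm_neg, norm_mul, hy] at h2
  have h3 : ‖x * y + 3‖ ≤ 4 := by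
    refine (norm_add_le _ _).trans ?_
    rw [norm_mul, hy]
    norm_num
    linarith
  have h4 : ‖(9 : ℂ)‖ = 9 := by norm_num
  rw [h4] at h2
  linarith

/-! ### the values -/

lemma val_of_poly {f : ℂ → ℝ} (P : ℂ[X])
    (h : ∀ z : ℂ, ‖z‖ = 1 → f z = Real.log ‖P.eval z‖) :
    Real.circleAverage f 0 1 = Real.log P.mahlerMeasure := by
  rw [← Polynomial.logMahlerMeasure_eq_log_MahlerMeasure, Polynomial.logMahlerMeasure_def]
  apply Real.circleAverage_congr_sphere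
  intro z hz
  rw [abs_one, mem_sphere_zero_iff_norm] at hz
  exact h z hz

lemma m_empty : m F0 .empty = Real.log 91 := by
  show Real.log ‖ev F0 1 1‖ = _
  rw [ev_F0]
  norm_num

lemma m_zeroOne : m F0 .zeroOne = Real.log 50 := by
  show Real.circleAverage (fun z => Real.log ‖ev F0 1 z‖) 0 1 = _
  rw [val_of_poly ((C 2 * X + C 5) * (C 10 * X + C 3))]
  · rw [mahlerMeasure_mul, mahlerMeasure_C_mul_X_add_C (by norm_num),
      mahlerMeasure_C_mul_X_add_C (by norm_num)]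
    norm_num
  · intro z _
    rw [ev_F0]
    congr 2
    simp
    ring

lemma m_row_zero (n : ℕ) (hn : 1 ≤ n) (h : Int.gcd (n : ℤ) 0 = 1) :
    m F0 (.row n 0 hn h) = Real.log 72 := by
  show Real.circleAverage (fun z => Real.log ‖ev F0 (z ^ n) (z ^ (0 : ℤ))‖) 0 1 = _
  have hn1 : n = 1 := by simpa using h
  subst hn1
  rw [val_of_poly ((C 1 * X + C 6) * (C 1 * X + C 12))]
  · rw [mahlerMeasure_mul, mahlerMeasure_C_mul_X_add_C (by norm_num),
      mahlerMeasure_C_mul_X_add_C (by norm_num)]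
    norm_num
  · intro z _
    rw [ev_F0]
    congr 2
    simp
    ring

lemma m_unit : m F0 .unit = Real.log 36 := by
  show Real.circleAverage
      (fun z => Real.circleAverage (fun w => Real.log ‖ev F0 z w‖) 0 1) 0 1 = _
  rw [val_of_poly ((C 1 * X + C 4) * (C 1 * X + C 9))]
  · rw [mahlerMeasure_mul, mahlerMeasure_C_mul_X_add_C (by norm_num),
      mahlerMeasure_C_mul_X_add_C (by norm_num)]
    norm_num
  · intro z hz
    have h4 : (2 : ℝ) ≤ ‖4 + z‖ := by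
      have h1 := norm_sub_norm_le (4 : ℂ) (-z)
      rw [norm_neg, hz, sub_neg_eq_add] at h1
      norm_num at h1
      linarith
    have h9 : (3 : ℝ) ≤ ‖9 + z‖ := by
      have h1 := norm_sub_norm_le (9 : ℂ) (-z)
      rw [norm_neg, hz, sub_neg_eq_add] at h1
      norm_num at h1
      linarith
    have h90 : (9 + z : ℂ) ≠ 0 := by
      intro h
      rw [h, norm_zero] at h9
      linarith
    rw [val_of_poly ((C 2 * X + C (4 + z)) * (C (9 + z) * X + C 3))]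
    · rw [mahlerMeasure_mul, mahlerMeasure_C_mul_X_add_C (by norm_num),
        mahlerMeasure_C_mul_X_add_C h90]
      have e1 : ‖(2 : ℂ)‖ = 2 := by norm_num
      have e2 : ‖(3 : ℂ)‖ = 3 := by norm_num
      rw [e1, e2, max_eq_right h4, max_eq_left h9, ← norm_mul]
      congr 2
      simp
      ring
    · intro w _
      rw [ev_F0]
      congr 2
      simp
      ring

/-- a dominant constant term -/
lemma dom {n s : ℕ} {β γ : ℂ} (h : 1 + ‖β‖ < ‖γ‖) (hs : 0 < s) (hn : 0 < n) :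
    (X ^ n + C β * X ^ s + C γ : ℂ[X]).mahlerMeasure = ‖γ‖ := by
  have hγ : 0 < ‖γ‖ := by
    have := norm_nonneg β
    linarith
  set q : ℂ[X] := X ^ n + C β * X ^ s + C γ with hq
  have hne : ∀ u : ℂ, ‖u‖ ≤ 1 → q.eval u ≠ 0 := by
    intro u hu h0
    have h1 : γ = -(u ^ n + β * u ^ s) := by
      have : u ^ n + β * u ^ s + γ = 0 := by simpa [hq] using h0
      linear_combination this
    have h2 : ‖γ‖ ≤ 1 + ‖β‖ := by
      rw [h1, norm_neg]
      refine (norm_add_le _ _).trans ?_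
      rw [norm_mul, norm_pow, norm_pow]
      have h3 : ‖u‖ ^ n ≤ 1 := pow_le_one₀ (norm_nonneg _) hu
      have h4 : ‖u‖ ^ s ≤ 1 := pow_le_one₀ (norm_nonneg _) hu
      have h5 := norm_nonneg β
      nlinarith
    linarith
  have h0 : q ≠ 0 := by
    intro h
    apply hne 0 (by simp)
    rw [h, eval_zero]
  have h1 : q.logMahlerMeasure = Real.log ‖γ‖ := by
    rw [logMahlerMeasure_def]
    have h2 := AnalyticOnNhd.circleAverage_log_norm_of_ne_zero (R := 1) (c := 0)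
      (g := fun z => q.eval z) (fun z _ => (q.differentiable.analyticAt z)) (by
        intro u hu
        rw [abs_one, mem_closedBall_zero_iff] at hu
        exact hne u hu)
    rw [h2]
    congr 2
    simp [hq, hs.ne', hn.ne']
  rw [logMahlerMeasure_eq_log_MahlerMeasure] at h1
  exact Real.log_injOn_pos (mahlerMeasure_pos_of_ne_zero h0) hγ h1

lemma c42 : 1 + ‖((2 : ℤ) : ℂ)‖ < ‖((4 : ℤ) : ℂ)‖ := by norm_num
lemma c93 : 1 + ‖((3 : ℤ) : ℂ)‖ < ‖((9 : ℤ) : ℂ)‖ := by norm_num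

/-- the two families of measures -/
noncomputable def T1 (n s : ℕ) : ℝ := (tri n s ((4 : ℤ) : ℂ) ((2 : ℤ) : ℂ)).mahlerMeasure
noncomputable def T2 (n s : ℕ) : ℝ := (tri n s ((9 : ℤ) : ℂ) ((3 : ℤ) : ℂ)).mahlerMeasure

lemma m_row_neg (n s : ℕ) (hn : 1 ≤ n) (hs : 1 ≤ s) (h : Int.gcd (n : ℤ) (-s) = 1) :
    m F0 (.row n (-s) hn h) = Real.log (9 * T1 n s) := by
  show Real.circleAverage (fun z => Real.log ‖ev F0 (z ^ n) (z ^ (-(s : ℤ)))‖) 0 1 = _
  rw [val_of_poly ((X ^ n + C 3 * X ^ s + C 9) * tri n s ((4 : ℤ) : ℂ) ((2 : ℤ) : ℂ))]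
  · rw [mahlerMeasure_mul, dom (by norm_num) hs hn, T1]
    norm_num
  · intro z hz
    have hz0 : z ≠ 0 := by
      rintro rfl
      rw [norm_zero] at hz
      exact zero_ne_one hz
    rw [ev_F0, zpow_neg, zpow_natCast]
    congr 1
    have hzs : z ^ s ≠ 0 := pow_ne_zero _ hz0
    have e1 : (4 + z ^ n + 2 * (z ^ s)⁻¹) * (9 * (z ^ s)⁻¹ + z ^ n * (z ^ s)⁻¹ + 3) =
        ((z ^ s)⁻¹) ^ 2 * ((z ^ n + 3 * z ^ s + 9) * (z ^ (n + s) + 4 * z ^ s + 2)) := by
      field_simp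
      ring
    rw [e1, norm_mul, norm_pow, norm_inv, norm_pow, hz]
    simp [tri_eval]

lemma m_row_pos (n s : ℕ) (hn : 1 ≤ n) (hs : 1 ≤ s) (h : Int.gcd (n : ℤ) s = 1) :
    m F0 (.row n s hn h) = Real.log (4 * T2 n s) := by
  show Real.circleAverage (fun z => Real.log ‖ev F0 (z ^ n) (z ^ (s : ℤ))‖) 0 1 = _
  rw [val_of_poly ((X ^ n + C 2 * X ^ s + C 4) * tri n s ((9 : ℤ) : ℂ) ((3 : ℤ) : ℂ))]
  · rw [mahlerMeasure_mul, dom (by norm_num) hs hn, T2]
    norm_num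
  · intro z hz
    rw [ev_F0, zpow_natCast]
    congr 2
    simp [tri_eval]
    ring

/-! ### arithmetic -/

lemma T1_pos {n s : ℕ} (hn : 1 ≤ n) (hs : 1 ≤ s) : 0 < T1 n s :=
  mahlerMeasure_pos_of_ne_zero (tri_monic hn hs _ _).1.ne_zero

lemma T2_pos {n s : ℕ} (hn : 1 ≤ n) (hs : 1 ≤ s) : 0 < T2 n s :=
  mahlerMeasure_pos_of_ne_zero (tri_monic hn hs _ _).1.ne_zero

/-- the matrices for which the measure is an integer -/
def IsA (H : SHNF) (N : ℕ) : Prop :=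
  (N = 91 ∧ H = .empty) ∨ (N = 50 ∧ H = .zeroOne) ∨
    (N = 72 ∧ H = .row 1 0 le_rfl (by simp)) ∨ (N = 36 ∧ H = .unit)

lemma classify (H : SHNF) :
    (∃ N : ℕ, IsA H N ∧ m F0 H = Real.log N) ∨
    (∃ (n s : ℕ) (hn : 1 ≤ n) (_ : 1 ≤ s) (h : Int.gcd (n : ℤ) (-s) = 1),
      H = .row n (-s) hn h ∧ m F0 H = Real.log (9 * T1 n s)) ∨
    (∃ (n s : ℕ) (hn : 1 ≤ n) (_ : 1 ≤ s) (h : Int.gcd (n : ℤ) s = 1),
      H = .row n s hn h ∧ m F0 H = Real.log (4 * T2 n s)) := by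
  rcases H with _ | _ | ⟨n, p, hn, h⟩ | _
  · exact Or.inl ⟨91, Or.inl ⟨rfl, rfl⟩, by rw [m_empty]; norm_num⟩
  · exact Or.inl ⟨50, Or.inr (Or.inl ⟨rfl, rfl⟩), by rw [m_zeroOne]; norm_num⟩
  · rcases lt_trichotomy p 0 with hp | rfl | hp
    · obtain ⟨s, rfl⟩ : ∃ s : ℕ, p = -s := ⟨p.natAbs, by omega⟩
      have hs : 1 ≤ s := by omega
      exact Or.inr (Or.inl ⟨n, s, hn, hs, h, rfl, m_row_neg n s hn hs h⟩)
    · have hn1 : n = 1 := by simpa using h
      subst hn1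
      exact Or.inl ⟨72, Or.inr (Or.inr (Or.inl ⟨rfl, rfl⟩)), by rw [m_row_zero]; norm_num⟩
    · obtain ⟨s, rfl⟩ : ∃ s : ℕ, p = s := ⟨p.natAbs, by omega⟩
      have hs : 1 ≤ s := by omega
      exact Or.inr (Or.inr ⟨n, s, hn, hs, h, rfl, m_row_pos n s hn hs h⟩)
  · exact Or.inl ⟨36, Or.inr (Or.inr (Or.inr ⟨rfl, rfl⟩)), by rw [m_unit]; norm_num⟩

theorem inj : Function.Injective (m F0) := by
  obtain ⟨B2, h2lt, h2le, h2u⟩ := exists_val 2 Nat.prime_two
  obtain ⟨B3, h3lt, h3le, h3u⟩ := exists_val 3 Nat.prime_three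
  set v2 := B2.valuation with hv2
  set v3 := B3.valuation with hv3
  have h2lt' : v2 ((2 : ℤ) : ℂ) < 1 := by simpa using h2lt
  have h3lt' : v3 ((3 : ℤ) : ℂ) < 1 := by simpa using h3lt
  have h20 : 0 < v2 ((2 : ℤ) : ℂ) := zero_lt_iff.2 (v2.ne_zero_iff.2 (by norm_num))
  have h30 : 0 < v3 ((3 : ℤ) : ℂ) := zero_lt_iff.2 (v3.ne_zero_iff.2 (by norm_num))
  have F1 : ∀ n s : ℕ, 1 ≤ n → 1 ≤ s →
      v2 ((T1 n s : ℂ) ^ 2) ^ (n + s) = v2 ((2 : ℤ) : ℂ) ^ (2 * n) := by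
    intro n s hn hs
    refine tri_val v2 hn hs c42 (n + s) _ (fun ρ h => root_val v2 hs (by norm_num) h2lt' ?_ h)
    have e1 : ((4 : ℤ) : ℂ) = ((2 : ℤ) : ℂ) * ((2 : ℤ) : ℂ) := by norm_num
    rw [e1, map_mul]
    exact mul_le_of_le_one_left' (h2le 2)
  have F2 : ∀ n s : ℕ, 1 ≤ n → 1 ≤ s → v2 ((T2 n s : ℂ) ^ 2) = 1 := by
    intro n s hn hs
    have h1 := tri_val v2 hn hs c93 1 1 (fun ρ h => root_unit v2 hn hs (h2u 3 (by norm_num))
      (h2le 9) h)
    rw [pow_one, one_pow] at h1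
    exact h1
  have F3 : ∀ n s : ℕ, 1 ≤ n → 1 ≤ s →
      v3 ((T2 n s : ℂ) ^ 2) ^ (n + s) = v3 ((3 : ℤ) : ℂ) ^ (2 * n) := by
    intro n s hn hs
    refine tri_val v3 hn hs c93 (n + s) _ (fun ρ h => root_val v3 hs (by norm_num) h3lt' ?_ h)
    have e1 : ((9 : ℤ) : ℂ) = ((3 : ℤ) : ℂ) * ((3 : ℤ) : ℂ) := by norm_num
    rw [e1, map_mul]
    exact mul_le_of_le_one_left' (h3le 3)
  -- valuations of the integers
  have G2 : ∀ (H : SHNF) (N : ℕ), IsA H N → ∃ a : ℕ, v2 (N : ℂ) = v2 ((2 : ℤ) : ℂ) ^ a := by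
    rintro H N (⟨rfl, -⟩ | ⟨rfl, -⟩ | ⟨rfl, -⟩ | ⟨rfl, -⟩)
    · refine ⟨0, ?_⟩
      have := h2u 91 (by norm_num)
      rw [pow_zero]
      exact_mod_cast this
    · refine ⟨1, ?_⟩
      have e1 : ((50 : ℕ) : ℂ) = ((2 : ℤ) : ℂ) ^ 1 * ((25 : ℤ) : ℂ) := by norm_num
      rw [e1, map_mul, map_pow, h2u 25 (by norm_num), mul_one]
    · refine ⟨3, ?_⟩
      have e1 : ((72 : ℕ) : ℂ) = ((2 : ℤ) : ℂ) ^ 3 * ((9 : ℤ) : ℂ) := by norm_num
      rw [e1, map_mul, map_pow, h2u 9 (by norm_num), mul_one]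
    · refine ⟨2, ?_⟩
      have e1 : ((36 : ℕ) : ℂ) = ((2 : ℤ) : ℂ) ^ 2 * ((9 : ℤ) : ℂ) := by norm_num
      rw [e1, map_mul, map_pow, h2u 9 (by norm_num), mul_one]
  have G3 : ∀ (H : SHNF) (N : ℕ), IsA H N → ∃ a : ℕ, v3 (N : ℂ) = v3 ((3 : ℤ) : ℂ) ^ a := by
    rintro H N (⟨rfl, -⟩ | ⟨rfl, -⟩ | ⟨rfl, -⟩ | ⟨rfl, -⟩)
    · refine ⟨0, ?_⟩
      have := h3u 91 (by norm_num)
      rw [pow_zero]
      exact_mod_cast this
    · refine ⟨0, ?_⟩
      have := h3u 50 (by norm_num)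
      rw [pow_zero]
      exact_mod_cast this
    · refine ⟨2, ?_⟩
      have e1 : ((72 : ℕ) : ℂ) = ((3 : ℤ) : ℂ) ^ 2 * ((8 : ℤ) : ℂ) := by norm_num
      rw [e1, map_mul, map_pow, h3u 8 (by norm_num), mul_one]
    · refine ⟨2, ?_⟩
      have e1 : ((36 : ℕ) : ℂ) = ((3 : ℤ) : ℂ) ^ 2 * ((4 : ℤ) : ℂ) := by norm_num
      rw [e1, map_mul, map_pow, h3u 4 (by norm_num), mul_one]
  have posN : ∀ (H : SHNF) (N : ℕ), IsA H N → (0 : ℝ) < N := by
    rintro H N (⟨rfl, -⟩ | ⟨rfl, -⟩ | ⟨rfl, -⟩ | ⟨rfl, -⟩) <;> norm_num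
  -- comparisons
  have K1 : ∀ (H : SHNF) (N n s : ℕ), IsA H N → 1 ≤ n → 1 ≤ s → (N : ℝ) ≠ 9 * T1 n s := by
    intro H N n s hA hn hs h
    obtain ⟨a, ha⟩ := G2 H N hA
    have h1 : (T1 n s : ℂ) ^ 2 * ((81 : ℤ) : ℂ) = (N : ℂ) ^ 2 := by
      have h2 : (N : ℂ) = 9 * (T1 n s : ℂ) := by exact_mod_cast h
      rw [h2]; push_cast; ring
    have h3 := congrArg v2 h1
    rw [map_mul, h2u 81 (by norm_num), mul_one, map_pow v2 (N : ℂ), ha, ← pow_mul, mul_comm a] at h3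
    exact no_int hn hs h20 h2lt' (F1 n s hn hs) h3
  have K2 : ∀ (n s n' s' : ℕ), 1 ≤ n → 1 ≤ s → 1 ≤ n' → 1 ≤ s' →
      9 * T1 n s ≠ 4 * T2 n' s' := by
    intro n s n' s' hn hs hn' hs' h
    have h1 : (T1 n s : ℂ) ^ 2 * ((81 : ℤ) : ℂ) = ((2 : ℤ) : ℂ) ^ 4 * (T2 n' s' : ℂ) ^ 2 := by
      have h2 : 9 * (T1 n s : ℂ) = 4 * (T2 n' s' : ℂ) := by exact_mod_cast h
      have h3 : (9 * (T1 n s : ℂ)) ^ 2 = (4 * (T2 n' s' : ℂ)) ^ 2 := by rw [h2]
      push_cast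
      linear_combination h3
    have h3 := congrArg v2 h1
    rw [map_mul, h2u 81 (by norm_num), mul_one, map_mul, F2 n' s' hn' hs', mul_one,
      map_pow v2 ((2 : ℤ) : ℂ)] at h3
    exact no_int (a := 2) hn hs h20 h2lt' (F1 n s hn hs) h3
  have K3 : ∀ (H : SHNF) (N n s : ℕ), IsA H N → 1 ≤ n → 1 ≤ s → (N : ℝ) ≠ 4 * T2 n s := by
    intro H N n s hA hn hs h
    obtain ⟨a, ha⟩ := G3 H N hA
    have h1 : (T2 n s : ℂ) ^ 2 * ((16 : ℤ) : ℂ) = (N : ℂ) ^ 2 := by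
      have h2 : (N : ℂ) = 4 * (T2 n s : ℂ) := by exact_mod_cast h
      rw [h2]; push_cast; ring
    have h3 := congrArg v3 h1
    rw [map_mul, h3u 16 (by norm_num), mul_one, map_pow v3 (N : ℂ), ha, ← pow_mul, mul_comm a] at h3
    exact no_int hn hs h30 h3lt' (F3 n s hn hs) h3
  have P1 : ∀ n s : ℕ, 1 ≤ n → 1 ≤ s → (0 : ℝ) < 9 * T1 n s := fun n s hn hs =>
    mul_pos (by norm_num) (T1_pos hn hs)
  have P2 : ∀ n s : ℕ, 1 ≤ n → 1 ≤ s → (0 : ℝ) < 4 * T2 n s := fun n s hn hs =>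
    mul_pos (by norm_num) (T2_pos hn hs)
  have logi : ∀ {a b : ℝ}, 0 < a → 0 < b → Real.log a = Real.log b → a = b :=
    fun ha hb h => Real.log_injOn_pos ha hb h
  intro H H' heq
  rcases classify H with ⟨N, hA, hm⟩ | ⟨n, s, hn, hs, hc, rfl, hm⟩ | ⟨n, s, hn, hs, hc, rfl, hm⟩ <;>
  rcases classify H' with ⟨N', hA', hm'⟩ | ⟨n', s', hn', hs', hc', rfl, hm'⟩ |
    ⟨n', s', hn', hs', hc', rfl, hm'⟩ <;> rw [hm, hm'] at heq
  · have h1 : N = N' := by exact_mod_cast logi (posN H N hA) (posN H' N' hA') heq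
    subst h1
    rcases hA with ⟨rfl, rfl⟩ | ⟨rfl, rfl⟩ | ⟨rfl, rfl⟩ | ⟨rfl, rfl⟩ <;>
    rcases hA' with ⟨h2, rfl⟩ | ⟨h2, rfl⟩ | ⟨h2, rfl⟩ | ⟨h2, rfl⟩ <;>
    first
      | rfl
      | (exfalso; omega)
  · exact absurd (logi (posN H N hA) (P1 n' s' hn' hs') heq) (K1 H N n' s' hA hn' hs')
  · exact absurd (logi (posN H N hA) (P2 n' s' hn' hs') heq) (K3 H N n' s' hA hn' hs')
  · exact absurd (logi (P1 n s hn hs) (posN H' N' hA') heq).symm (K1 H' N' n s hA' hn hs)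
  · have h1 := logi (P1 n s hn hs) (P1 n' s' hn' hs') heq
    have h2 : T1 n s = T1 n' s' := by linarith
    have h3 := F1 n' s' hn' hs'
    rw [← h2] at h3
    obtain ⟨rfl, rfl⟩ := exps hn hs hn' hs' (by simpa [Int.gcd] using hc)
      (by simpa [Int.gcd] using hc') h20 h2lt' (F1 n s hn hs) h3
    rfl
  · exact absurd (logi (P1 n s hn hs) (P2 n' s' hn' hs') heq) (K2 n s n' s' hn hs hn' hs')
  · exact absurd (logi (P2 n s hn hs) (posN H' N' hA') heq).symm (K3 H' N' n s hA' hn hs)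
  · exact absurd (logi (P2 n s hn hs) (P1 n' s' hn' hs') heq).symm (K2 n' s' n s hn' hs' hn hs)
  · have h1 := logi (P2 n s hn hs) (P2 n' s' hn' hs') heq
    have h2 : T2 n s = T2 n' s' := by linarith
    have h3 := F3 n' s' hn' hs'
    rw [← h2] at h3
    obtain ⟨rfl, rfl⟩ := exps hn hs hn' hs' (by simpa [Int.gcd] using hc)
      (by simpa [Int.gcd] using hc') h30 h3lt' (F3 n s hn hs) h3
    rfl

/-- There is `F ∈ ℤ[x, y]` of dimension 2, without zeros on the torus (so all `F_H` are nonzero),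
such that `H ↦ m(F_H)` is injective on the set of all matrices in saturated Hermite normal form. -/
theorem result : ∃ F : MvPolynomial (Fin 2) ℤ, HasDimTwo F ∧
    (∀ x y : ℂ, ‖x‖ = 1 → ‖y‖ = 1 → ev F x y ≠ 0) ∧ Function.Injective (m F) := by
  refine ⟨F0, dim_F0, ?_, inj⟩
  intro x y hx hy
  rw [ev_F0]
  exact mul_ne_zero (ne1 hx.le hy.le) (ne2 hx.le hy)

end Pool.Agent.Results.MP_5d730e_nt.TwoVariables
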